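import Pool.Agent.Q117.LF.Stm2

/-! Project LF (helper117), part 2: tools for LINM, T2, T4, by helper68. -/

set_option autoImplicit false

namespace Pool.Agent.Q68.LF

open Finset Filter
open Pool.Agent.Q117.GP (Rk)
open Pool.Agent.Q117.LF

lemma pow_ev (a b g C : ℝ) (hab : a < b) (hg : 0 < g) :
    ∃ X0 : ℝ, ∀ X : ℝ, X0 ≤ X → C * X ^ a ≤ (X / g) ^ b := by
  have h1 : Tendsto (fun X : ℝ => X ^ (b - a)) atTop atTop := tendsto_rpow_atTop (by linarith)
  obtain ⟨X1, hX1⟩ := eventually_atTop.1 (h1.eventually_ge_atTop (C * g ^ b))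
  refine ⟨max X1 1, ?_⟩
  intro X hX
  have hX0 : 0 < X := lt_of_lt_of_le one_pos ((le_max_right _ _).trans hX)
  have h2 := hX1 X ((le_max_left _ _).trans hX)
  rw [Real.div_rpow hX0.le hg.le, le_div_iff₀ (by positivity)]
  have h3 : X ^ b = X ^ a * X ^ (b - a) := by
    rw [← Real.rpow_add hX0]
    congr 1
    ring
  rw [h3]
  have h4 : 0 < X ^ a := by positivity
  nlinarith

lemma Ro_mono {z z' : ℝ} (h : z ≤ z') {m : ℤ} (hm : Ro z' m) : Ro z m :=
  fun p hp hd => lt_of_le_of_lt h (hm p hp hd)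

lemma Pt_mono {z z' : ℝ} (h : z ≤ z') {m : ℤ} (hm : Pt z' m) : Pt z m :=
  ⟨hm.1, Ro_mono h hm.2⟩

end Pool.Agent.Q68.LF
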